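import Pool.Agent.helper64.PB.SpecW

/-! Row pb:WIN. -/

set_option autoImplicit false

namespace Pool.Agent.PB

theorem WIN_mono {G : Set Gate} {n : ℕ} {f : BF n} {s t : ℕ} (h : Size G f s) (hst : s ≤ t) :
    Size G f t := by
  obtain ⟨l, h1, h2, h3⟩ := h
  exact ⟨l, h1, h2.trans hst, h3⟩

theorem WIN_inter {n k : ℕ} {f : BF n} (h : Inter (k + 2) f) : Inter 2 f := by
  intro a ha
  obtain ⟨i, hi⟩ := h (fun j => if j = 0 then a 0 else a 1) (by
    intro j
    by_cases hj : j = 0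
    · simp only [hj, if_true]; exact ha 0
    · simp only [hj, if_false]; exact ha 1)
  refine ⟨i, ?_⟩
  intro j
  have h0 := hi 0
  have h1 := hi 1
  simp only [if_true] at h0
  have h10 : (1 : Fin (k + 2)) ≠ 0 := by
    intro h
    have := congrArg Fin.val h
    simp at this
  simp only [h10, if_false] at h1
  fin_cases j
  · exact h0
  · exact h1

theorem WIN (hUPC : UPC_stmt) (hS12 : S12_stmt) (hHIN : HIN_stmt) (hHLO : HLO_stmt)
    (hHUP : HUP_stmt) (hRST : RST_stmt) (hMXK : MXK_stmt) (hNMI : NMI_stmt) (hTKI : TKI_stmt) :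
    WIN_stmt := by
  intro G hfin hnm hgap
  obtain ⟨K, hK, hint, hnint⟩ := hMXK G hgap
  obtain ⟨k, rfl⟩ : ∃ k, K = k + 2 := ⟨K - 2, by omega⟩
  obtain ⟨hA, hM⟩ := hNMI G (fun g hg => WIN_inter (hint g hg)) hnm
  have hT := hTKI G (k + 2) hK hint hnint hA hM
  obtain ⟨c₁, hc₁⟩ := hUPC G (k + 2) hfin (by omega) hint
  obtain ⟨c₂, hc₂⟩ := hHUP k
  refine ⟨c₁ + c₂ + 2 * k + 5, ?_⟩
  intro n h hn hmono
  obtain ⟨hI, h1⟩ := hHIN k n h hmono
  refine ⟨(k + 1) * n + (k + 2), by omega, ?_, fH k n h, ?_, ?_, ?_⟩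
  · nlinarith
  · exact hS12 G (k + 2) hK hM hT _ _ hI h1
  · intro s hs
    refine WIN_mono (hc₂ n h hn s hs) (Nat.mul_le_mul_right _ ?_)
    omega
  · intro s hs
    obtain ⟨u, hu1, hu2, hu3, hu4⟩ := hc₁ _ _ s hs
    have hlo := hHLO k n h u hu2 hu3
    have hr := (hRST _ n u (c₁ * s) (fun i => fun x : Fin n → Bool =>
      (Sum.elim (fun p : Fin (k + 1) × Fin n => x p.2) fun m => !(decide (m = Fin.last (k + 1))))
      ((eH k n).symm i)) ?_).1 hu4
    · have he : (fun x : Fin n → Bool => u fun i => (Sum.elim (fun p : Fin (k + 1) × Fin n => x p.2)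
          fun m => !(decide (m = Fin.last (k + 1)))) ((eH k n).symm i)) = h := funext hlo
      rw [he] at hr
      refine WIN_mono hr ?_
      nlinarith
    · intro i
      rcases hi : (eH k n).symm i with p | m
      · left
        exact ⟨p.2, rfl⟩
      · right
        exact ⟨!(decide (m = Fin.last (k + 1))), rfl⟩

end Pool.Agent.PB
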