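import Pool.Agent.helper64.PB.SpecC

/-! Row pb:EST. -/

set_option autoImplicit false

namespace Pool.Agent.PB

theorem EST_mono {G : Set Gate} {n : ℕ} {f : BF n} {s t : ℕ} (h : Size G f s) (hst : s ≤ t) :
    Size G f t := by
  obtain ⟨l, h1, h2, h3⟩ := h
  exact ⟨l, h1, h2.trans hst, h3⟩

theorem EST_var (G : Set Gate) {n : ℕ} (j : Fin n) : Size G (fun x : Fin n → Bool => x j) 0 :=
  ⟨[], Prog.nil, le_rfl, Or.inr ⟨j, rfl⟩⟩

theorem EST (hRTP : RTP_stmt) (hRT0 : RT0_stmt) (hPRP : PRP_stmt) (hCLP : CLP_stmt) : EST_stmt := by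
  intro G hG hM
  obtain ⟨c₁, hc₁⟩ := hRTP G hM
  obtain ⟨c₂, hc₂⟩ : ∃ c₂ : ℕ, InCl G (fC false 1) → ∀ (n : ℕ) (f : BF n) (i : Fin n) (s : ℕ),
      (∀ x, f x = true → x i = true) → Size std f s → Size G f (c₂ * (s + n)) := by
    by_cases h0 : InCl G (fC false 1)
    · obtain ⟨c, hc⟩ := hRT0 G hM h0
      exact ⟨c, fun _ => hc⟩
    · exact ⟨0, fun h => absurd h h0⟩
  refine ⟨c₁ + c₂, ?_⟩
  intro n hn f hf s hs
  have hst : Star f := (hPRP G n f hf).2.2.2.2.2.2.1 hG
  cases h1 : f (fun _ => true) with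
  | true =>
    rcases hst with h | ⟨i, hi⟩
    · rw [h] at h1
      exact absurd h1 (by simp)
    · have h2 := hc₁ n hn (fun x => x i) f s 0 (EST_var G i) hi h1 hs
      refine EST_mono h2 ?_
      rw [zero_add]
      exact Nat.mul_le_mul_right _ (Nat.le_add_right _ _)
  | false =>
    have h00 : f (fun _ => false) = false := by
      rcases hst with h | ⟨i, hi⟩
      · exact h _
      · by_contra h3
        have h4 := hi _ (by simpa using h3)
        exact absurd h4 (by simp)
    have h0 : InCl G (fC false 1) := by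
      have h2 := hCLP.2 G n 1 f (fun _ => fun x => x 0) hf (fun _ => hCLP.1 G 1 0)
      have h3 : (fun x : Fin 1 → Bool => f fun _ => x 0) = fC false 1 := by
        funext x
        cases hx : x 0 with
        | true => exact h1
        | false => exact h00
      rwa [h3] at h2
    have h2 : ∃ i : Fin n, ∀ x, f x = true → x i = true := by
      rcases hst with h | h
      · refine ⟨⟨0, hn⟩, fun x hx => ?_⟩
        rw [h] at hx
        exact absurd hx (by simp)
      · exact h
    obtain ⟨i, hi⟩ := h2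
    refine EST_mono (hc₂ h0 n f i s hi hs) ?_
    exact Nat.mul_le_mul_right _ (Nat.le_add_left _ _)

end Pool.Agent.PB
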